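import Mathlib
import Pool.Agent.Q61.TP.F

/-!
# Solutions of the outer two-phase Serrin problem are not ordered by inclusion (MP_6a2436_an)

Q1 asks whether the solutions of the outer problem for a fixed core `D` are ordered by inclusion,
increasingly with volume. The answer is no, in every dimension `N ≥ 2` and for every coefficient
`σc ≠ 1`: for a suitable annular core `D = {r₁ < |x| < r₂}` there is a solution `Ω₁ = {1 < |x| < t}`
of the outer problem, and every ball `Ω₂` about the origin with `r₂ < radius` is a solution too; for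
radii slightly less than `t` one has `|Ω₁| < |Ω₂|` and `Ω₁ ⊄ Ω₂`.

In the plane there are moreover examples in which `D`, `Ω₁` and `Ω₂` are all concentric annuli.

The definitions (`IsDomain`, `IsOutwardNormal`, `coef`, `Solves`, `IsSolution`) are in
`Pool.Agent.Q61.TP.Def`.
-/

open MeasureTheory

namespace Pool.Agent.Results.MP_6a2436_an.AnnularCoreNotOrdered

open Pool.Agent.Q61.TP

/-- **Solutions of the outer problem for a fixed core are not ordered by inclusion**: for every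
`N ≥ 2` and every `σc > 0`, `σc ≠ 1`, there are a core `D` and solutions `Ω₁`, `Ω₂` of the outer
problem for `D` with `|Ω₁| < |Ω₂|` and `Ω₁ ⊄ Ω₂`. Moreover in the plane there are such `σc`, `D`,
`Ω₁`, `Ω₂` with `D`, `Ω₁` and `Ω₂` concentric annuli. -/
theorem result :
    (∀ N : ℕ, 2 ≤ N → ∀ σc : ℝ, 0 < σc → σc ≠ 1 → ∃ D Ω₁ Ω₂ : Set (EuclideanSpace ℝ (Fin N)),
      IsSolution σc D Ω₁ ∧ IsSolution σc D Ω₂ ∧ volume Ω₁ < volume Ω₂ ∧ ¬ Ω₁ ⊆ Ω₂) ∧
    (∃ σc : ℝ, 0 < σc ∧ σc < 1 ∧ ∃ D Ω₁ Ω₂ : Set (EuclideanSpace ℝ (Fin 2)),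
      (∃ a b : ℝ, 0 < a ∧ a < b ∧ D = {x | a < ‖x‖ ∧ ‖x‖ < b}) ∧
      (∃ a b : ℝ, 0 < a ∧ a < b ∧ Ω₁ = {x | a < ‖x‖ ∧ ‖x‖ < b}) ∧
      (∃ a b : ℝ, 0 < a ∧ a < b ∧ Ω₂ = {x | a < ‖x‖ ∧ ‖x‖ < b}) ∧
      IsSolution σc D Ω₁ ∧ IsSolution σc D Ω₂ ∧ volume Ω₁ < volume Ω₂ ∧ ¬ Ω₁ ⊆ Ω₂) := by
  refine ⟨fun N hN σc h1 h2 => main_all hN h1 h2, ?_⟩
  obtain ⟨σ, a, r1, r2, b, a', b', h1, h2, h3, h4, h5, h6, h7, h8, h9, h10, h11⟩ := main_plane
  refine ⟨σ, h1, h2, ann 2 r1 r2, ann 2 a b, ann 2 a' b',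
    ⟨r1, r2, by linarith, h6, rfl⟩, ⟨a, b, h3, by linarith, rfl⟩,
    ⟨a', b', by linarith, by linarith, rfl⟩, h9, h10, h11, fun hsub => ?_⟩
  obtain ⟨e, he⟩ : ∃ e : Sp 2, ‖e‖ = 1 := exists_norm_eq (Sp 2) zero_le_one
  have h12 : ‖((a + a') / 2) • e‖ = (a + a') / 2 := by
    rw [norm_smul, he, mul_one, Real.norm_eq_abs, abs_of_pos (by linarith)]
  have hmem : ((a + a') / 2) • e ∈ ann 2 a b := by
    show a < ‖((a + a') / 2) • e‖ ∧ ‖((a + a') / 2) • e‖ < b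
    rw [h12]
    constructor <;> linarith
  have h13 := (hsub hmem).1
  rw [h12] at h13
  linarith

end Pool.Agent.Results.MP_6a2436_an.AnnularCoreNotOrdered
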